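import Pool.Agent.Helper28.Sus.Goals2

/-!
# The edges are computed in linear space
-/

namespace Pool.Agent.Helper14.Sus

open Pool.Agent.Helper65.LinSpace Pool.Agent.Helper78.Mpc Pool.Agent.Helper28.Ram Finset Filter
open Pool.Agent.Helper28.Sus

variable {α : Type} [Ctx α] {β : Type} [Ctx β]

theorem lsp_comp {P : α → Prm} {C : α → ℕ} (h : LSP P C) {π : β → α} (hπ : LS π) :
    LSP (fun z => P (π z)) (fun z => C (π z)) where
  eA := LS.comp (g := fun z => (P z).eA) h.eA hπ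
  eN := LS.comp (g := fun z => (P z).eN) h.eN hπ
  eW := LS.comp (g := fun z => (P z).eW) h.eW hπ
  eK := LS.comp (g := fun z => (P z).eK) h.eK hπ
  eG := LS.comp (g := fun z => (P z).eG) h.eG hπ
  eR := LS.comp (g := fun z => (P z).eR) h.eR hπ
  ini := LS.comp (g := fun z => (P z).ini) h.ini hπ
  B0 := LS.comp (g := fun z => (P z).B0) h.B0 hπ
  st := LS.comp (g := fun z => (P z).st) h.st hπ
  Λ := LS.comp (g := fun z => (P z).Λ) h.Λ hπ
  β := LS.comp (g := fun z => (P z).β) h.β hπ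
  B := LS.comp (g := fun z => (P z).B) h.B hπ
  x := LS.comp (g := fun z => (P z).x) h.x hπ
  y := LS.comp (g := fun z => (P z).y) h.y hπ
  S := LS.comp (g := fun z => (P z).S) h.S hπ
  Z := LS.comp (g := fun z => (P z).Z) h.Z hπ
  u := LS.comp (g := fun z => (P z).u) h.u hπ
  V := LS.comp (g := fun z => (P z).V) h.V hπ
  b := LS.comp (g := fun z => (P z).b) h.b hπ
  I := LS.comp (g := fun z => (P z).I) h.I hπ
  E := LS.comp (g := fun z => (P z).E) h.E hπ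
  hC := LS.comp (g := C) h.hC hπ
  bβ0 := fun z => h.bβ0 (π z)
  bβ := fun z => h.bβ (π z)
  bS := fun z => h.bS (π z)
  bZ := fun z => h.bZ (π z)
  bV := fun z => h.bV (π z)
  bu := fun z => h.bu (π z)
  bb := fun z => h.bb (π z)
  bcz := fun z => h.bcz (π z)

theorem ls_pS {P : α → Prm} {C : α → ℕ} (h : LSP P C) : LS (fun z => 2 ^ ((P z).S + 1)) := by
  have hS := h.S
  refine LS.pow_of_le (f := fun _ => 2) (by fun_prop) (by fun_prop) h.hC fun z => ?_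
  exact (Nat.pow_le_pow_right (by norm_num) (by omega)).trans (h.bS z)

theorem ls_pV {P : α → Prm} {C : α → ℕ} (h : LSP P C) : LS (fun z => 2 ^ (P z).V) := by
  have hV := h.V
  refine LS.pow_of_le (f := fun _ => 2) (by fun_prop) (by fun_prop) h.hC fun z => ?_
  exact (Nat.pow_le_pow_right (by norm_num) (by omega)).trans (h.bV z)

theorem ls_pu {P : α → Prm} {C : α → ℕ} (h : LSP P C) : LS (fun z => 2 ^ (P z).u) := by
  have hu := h.u
  exact LS.pow_of_le (f := fun _ => 2) (by fun_prop) (by fun_prop) h.hC fun z => h.bu z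

theorem ls_pb {P : α → Prm} {C : α → ℕ} (h : LSP P C) : LS (fun z => 2 ^ (P z).b) := by
  have hb := h.b
  exact LS.pow_of_le (f := fun _ => 2) (by fun_prop) (by fun_prop) h.hC fun z => h.bb z

theorem ls_bd {P : α → Prm} {C : α → ℕ} (h : LSP P C) : LS (fun z => (P z).bd) := by
  have h1 := ls_pS h
  have h2 := ls_pb h
  have h3 := h.I
  unfold Prm.bd
  exact LS.mul h1 (LS.mul h3 h2)

theorem dig_le (q R i : ℕ) : dig q R i ≤ R := by
  unfold dig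
  exact (Nat.mod_le _ _).trans (Nat.div_le_self _ _)

theorem ls_lk {P : α → Prm} {C : α → ℕ} (h : LSP P C) {D x : α → ℕ} (hD : LS D) (hx : LS x) :
    LS (fun z => (P z).lk (D z) (x z)) := by
  have h1 : LSP (fun z : α × ℕ => P z.1) (fun z => C z.1) := lsp_comp h (by fun_prop)
  have hpS := ls_pS h1
  have hbd := ls_bd h1
  have hI := h1.I
  have hb := h1.b
  have hZ := h1.Z
  have hC1 := h1.hC
  have hC := h.hC
  have hD1 : LS (fun z : α × ℕ => D z.1) := LS.comp (g := D) hD (by fun_prop)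
  have hx1 : LS (fun z : α × ℕ => x z.1) := LS.comp (g := x) hx (by fun_prop)
  have hen : LS (fun z : α × ℕ => (P z.1).en (D z.1) z.2) := by
    unfold Prm.en
    exact LS.dig hbd hD1 (by fun_prop)
  have hq : LS (fun z : α × ℕ => (P z.1).en (D z.1) z.2 / 2 ^ ((P z.1).S + 1)) :=
    LS.div hen hpS
  have hm : LS (fun z : α × ℕ => min ((P z.1).b * ((P z.1).en (D z.1) z.2 / 2 ^ ((P z.1).S + 1) %
      (P z.1).I)) ((P z.1).Z + 1)) :=
    LS.min (LS.mul hb (LS.mod hq hI)) (LS.succ hZ)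
  have hp : LS (fun z : α × ℕ => 2 ^ min ((P z.1).b * ((P z.1).en (D z.1) z.2 /
      2 ^ ((P z.1).S + 1) % (P z.1).I)) ((P z.1).Z + 1)) := by
    refine LS.pow_of_le (f := fun _ => 2) (by fun_prop) hm hC1 fun z => ?_
    exact (Nat.pow_le_pow_right (by norm_num) ((min_le_right _ _).trans (by omega))).trans
      (h1.bZ z)
  have he : LS (fun z : α × ℕ => eq01 ((P z.1).en (D z.1) z.2 % 2 ^ ((P z.1).S + 1)) (x z.1)) :=
    LS.eq01 (LS.mod hen hpS) hx1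
  unfold Prm.lk
  refine LS.sum_le (N := fun a => (P a).E) (B := fun a => D a * C a)
    (f := fun a e => eq01 ((P a).en (D a) e % 2 ^ ((P a).S + 1)) (x a) *
    ((P a).en (D a) e / 2 ^ ((P a).S + 1) / (P a).I *
      2 ^ min ((P a).b * ((P a).en (D a) e / 2 ^ ((P a).S + 1) % (P a).I)) ((P a).Z + 1)))
    (LS.mul he (LS.mul (LS.div hq hI) hp)) h.E (LS.mul hD hC) fun a e _ => ?_
  have a1 : eq01 ((P a).en (D a) e % 2 ^ ((P a).S + 1)) (x a) ≤ 1 := by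
    unfold eq01; split_ifs <;> omega
  have a2 : (P a).en (D a) e / 2 ^ ((P a).S + 1) / (P a).I ≤ D a :=
    (Nat.div_le_self _ _).trans ((Nat.div_le_self _ _).trans (dig_le _ _ _))
  have a3 : 2 ^ min ((P a).b * ((P a).en (D a) e / 2 ^ ((P a).S + 1) % (P a).I)) ((P a).Z + 1) ≤
      C a :=
    (Nat.pow_le_pow_right (by norm_num) ((min_le_right _ _).trans (by omega))).trans (h.bZ a)
  calc _ ≤ 1 * (D a * C a) := Nat.mul_le_mul a1 (Nat.mul_le_mul a2 a3)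
    _ = D a * C a := one_mul _

theorem ls_cq {P : α → Prm} {C : α → ℕ} (h : LSP P C) {c : α → ℕ} (hc : LS c) :
    LS (fun z => (P z).cq (c z)) := by
  have h1 := ls_pS h
  have h2 := h.S
  have h3 := h.st
  unfold Prm.cq
  exact LS.ifz (LS.eq01 hc (LS.const 1)) (LS.mod (LS.sub hc (LS.const 2)) h1) (LS.capN h2 h3)

theorem ls_cl {P : α → Prm} {C : α → ℕ} (h : LSP P C) {c x : α → ℕ} (hc : LS c) (hx : LS x) :
    LS (fun z => (P z).cl (c z) (x z)) := by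
  have h1 := ls_pS h
  have h2 : LS (fun z => (P z).lk ((c z - 2) / 2 ^ ((P z).S + 1)) (x z)) :=
    ls_lk h (LS.div (LS.sub hc (LS.const 2)) h1) hx
  unfold Prm.cl
  exact LS.ifz (LS.eq01 hc (LS.const 1)) (LS.capN h.Z h2) (LS.const 1)

theorem ls_ro {x : α → ℕ} (hx : LS x) : LS (fun z => Prm.ro (x z)) := by
  unfold Prm.ro
  exact LS.mul (LS.lt01 (LS.const 1) hx) (LS.sub (LS.const 1) (LS.mod hx (LS.const 2)))

theorem lse : LSE_stmt := by
  intro α _ P C h F hF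
  -- the context with all variables
  have h4 : LSP (fun z : (((α × ℕ × ℕ) × ℕ) × ℕ) × ℕ => P z.1.1.1.1)
      (fun z => C z.1.1.1.1) := lsp_comp h (by fun_prop)
  have hF4 : LS (fun z : (((α × ℕ × ℕ) × ℕ) × ℕ) × ℕ =>
      F z.1.1.1.1 z.1.1.1.2.1 z.1.1.1.2.2 z.1.1.2 z.1.2 z.2) :=
    LS.comp (g := fun z : α × ℕ × ℕ × ℕ × ℕ × ℕ => F z.1 z.2.1 z.2.2.1 z.2.2.2.1 z.2.2.2.2.1
      z.2.2.2.2.2) (f := fun z : (((α × ℕ × ℕ) × ℕ) × ℕ) × ℕ =>
        (z.1.1.1.1, z.1.1.1.2.1, z.1.1.1.2.2, z.1.1.2, z.1.2, z.2)) hF (by fun_prop)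
  have hcl : LS (fun z : (((α × ℕ × ℕ) × ℕ) × ℕ) × ℕ =>
      (P z.1.1.1.1).cl z.1.1.1.2.2 z.2) := ls_cl h4 (by fun_prop) (by fun_prop)
  have hro : LS (fun z : (((α × ℕ × ℕ) × ℕ) × ℕ) × ℕ => Prm.ro z.2) := ls_ro (by fun_prop)
  have hbad : LS (fun z : (((α × ℕ × ℕ) × ℕ) × ℕ) × ℕ =>
      bad (P z.1.1.1.1) (F z.1.1.1.1) z.1.1.1.2.1 z.1.1.1.2.2 z.1.1.2 z.1.2 z.2) := by
    unfold bad
    have ha : LS (fun z : (((α × ℕ × ℕ) × ℕ) × ℕ) × ℕ => z.2) := by fun_prop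
    have hd : LS (fun z : (((α × ℕ × ℕ) × ℕ) × ℕ) × ℕ => z.1.1.1.2.2) := by fun_prop
    exact LS.ifz (LS.ifz ha (LS.const 1) (LS.mul (LS.lt01 (LS.const 0) hd)
      (LS.mul (LS.sub (LS.const 1) hro) (LS.lt01 (LS.const 0) hcl)))) (LS.const 0)
      (LS.sub (LS.const 1) (LS.eq01 hF4 (LS.const 1)))
  have h3 : LSP (fun z : ((α × ℕ × ℕ) × ℕ) × ℕ => P z.1.1.1) (fun z => C z.1.1.1) :=
    lsp_comp h (by fun_prop)
  have hs1 : LS (fun z : ((α × ℕ × ℕ) × ℕ) × ℕ => ∑ a ∈ range (2 ^ ((P z.1.1.1).S + 1)),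
      bad (P z.1.1.1) (F z.1.1.1) z.1.1.2.1 z.1.1.2.2 z.1.2 z.2 a) := by
    refine LS.sum_le (N := fun z : ((α × ℕ × ℕ) × ℕ) × ℕ => 2 ^ ((P z.1.1.1).S + 1))
      (B := fun _ => 1) (f := fun z a => bad (P z.1.1.1) (F z.1.1.1) z.1.1.2.1 z.1.1.2.2
        z.1.2 z.2 a) hbad (ls_pS h3) (LS.const 1) fun z a _ => ?_
    unfold bad ifz
    split_ifs <;> omega
  have h2 : LSP (fun z : (α × ℕ × ℕ) × ℕ => P z.1.1) (fun z => C z.1.1) :=
    lsp_comp h (by fun_prop)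
  have hle : ∀ x y : ℕ, eq01 x y ≤ 1 := fun x y => by unfold eq01; split_ifs <;> omega
  have hs2 : LS (fun z : (α × ℕ × ℕ) × ℕ => ∑ τ ∈ range (2 ^ (P z.1.1).V),
      eq01 (∑ a ∈ range (2 ^ ((P z.1.1).S + 1)),
      bad (P z.1.1) (F z.1.1) z.1.2.1 z.1.2.2 z.2 τ a) 0) := by
    refine LS.sum_le (N := fun z : (α × ℕ × ℕ) × ℕ => 2 ^ (P z.1.1).V)
      (B := fun _ => 1) (f := fun z τ => eq01 (∑ a ∈ range (2 ^ ((P z.1.1).S + 1)),
      bad (P z.1.1) (F z.1.1) z.1.2.1 z.1.2.2 z.2 τ a) 0) (LS.eq01 hs1 (LS.const 0)) (ls_pV h2)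
      (LS.const 1) fun z a _ => hle _ _
  have h1 : LSP (fun z : α × ℕ × ℕ => P z.1) (fun z => C z.1) := lsp_comp h (by fun_prop)
  have hpV := ls_pV h1
  have hs3 : LS (fun z : α × ℕ × ℕ => ∑ Y ∈ range (2 ^ (P z.1).u), ∑ τ ∈ range (2 ^ (P z.1).V),
      eq01 (∑ a ∈ range (2 ^ ((P z.1).S + 1)),
      bad (P z.1) (F z.1) z.2.1 z.2.2 Y τ a) 0) := by
    refine LS.sum_le (N := fun z : α × ℕ × ℕ => 2 ^ (P z.1).u)
      (B := fun z => 2 ^ (P z.1).V) (f := fun z Y => ∑ τ ∈ range (2 ^ (P z.1).V),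
      eq01 (∑ a ∈ range (2 ^ ((P z.1).S + 1)),
      bad (P z.1) (F z.1) z.2.1 z.2.2 Y τ a) 0) hs2 (ls_pu h1) hpV fun z Y _ => ?_
    refine (sum_le_sum (g := fun _ => 1) fun i _ => hle _ _).trans ?_
    simp
  have hcq : LS (fun z : α × ℕ × ℕ => (P z.1).cq z.2.2) := ls_cq h1 (by fun_prop)
  have hc : LS (fun z : α × ℕ × ℕ => z.2.1) := by fun_prop
  have hd : LS (fun z : α × ℕ × ℕ => z.2.2) := by fun_prop
  unfold edge
  exact LS.add (LS.eq01 hc hd) (LS.mul (LS.lt01 (LS.const 0) hc) (LS.mul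
    (LS.ifz hd (LS.const 1) (LS.mul (LS.lt01 (LS.const 1) hd) (LS.lt01 (LS.const 0) hcq)))
    (LS.lt01 (LS.const 0) hs3)))

end Pool.Agent.Helper14.Sus
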